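import Pool.Agent.Y924.UF.Stm3
import Pool.Agent.Y383.UF.FML

/-! # Project UF (helper924), third part, SEM2 (by helper182): meaning of the templates TMul, TOne -/

set_option autoImplicit false

namespace Pool.Agent.Y182.UF

open Function
open Pool.Agent.Y924.EL Pool.Agent.Y924.UF

section

variable {K : Type} [CommRing K] {O : Set K} {Q : (ℕ → K) → Prop} {h : Fin 5 → Fm}
  {X Y Z : Set K} {v : ℕ → K}

lemma sat_U0 (hQ : Keep100 Q) (hR : RepU O Q h X Y Z) (hv : Q v) {a : ℕ} (ha : a ≠ 0) :
    Sat O ((cU 0 a).inst h) v ↔ v a ∈ X := by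
  rw [cU, sat_call1 O h v _ ha, sat_hole, (hR _ (hQ _ _ _ (by norm_num) hv)).1, update_self]

lemma sat_U1 (hQ : Keep100 Q) (hR : RepU O Q h X Y Z) (hv : Q v) {a : ℕ} (ha : a ≠ 0) :
    Sat O ((cU 1 a).inst h) v ↔ v a ∈ Y := by
  rw [cU, sat_call1 O h v _ ha, sat_hole, (hR _ (hQ _ _ _ (by norm_num) hv)).2.1, update_self]

lemma sat_U2 (hQ : Keep100 Q) (hR : RepU O Q h X Y Z) (hv : Q v) {a : ℕ} (ha : a ≠ 0) :
    Sat O ((cU 2 a).inst h) v ↔ v a ∈ Z := by
  rw [cU, sat_call1 O h v _ ha, sat_hole, (hR _ (hQ _ _ _ (by norm_num) hv)).2.2, update_self]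

lemma sat_R (p : ℕ) {s a b : ℕ} (hs : s ≠ 30) (ha : a < 30) (hb : b < 30) :
    Sat O ((cR p s a b).inst h) v ↔ BB (v 64) p (v 65) (v 66) (v s) (v a) (v b) := by
  rw [cR, sat_atom]
  exact Pool.Agent.Y383.UF.sat_BFa O p hs (by omega) (by omega) (by omega) (by omega) (by omega) v

lemma sat_Fn (hQ : Keep100 Q) (p : ℕ) {W : Set K} {k : Fin 5}
    (hk : ∀ (v : ℕ → K) (a : ℕ), Q v → a ≠ 0 → (Sat O ((cU k a).inst h) v ↔ v a ∈ W)) (hv : Q v)
    {s a : ℕ} (hs : s = 67 ∨ s = 68) (ha : a = 10 ∨ a = 11) :
    Sat O ((TFn p s a 12 k).inst h) v ↔ ∃ x, x ∈ W ∧ BB (v 64) p (v 65) (v 66) (v s) (v 12) x ∧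
      ∀ y, y ∈ W → BB (v 64) p (v 65) (v 66) (v s) (v 12) y → y = x := by
  simp only [TFn, sat_ex, sat_and, sat_all, sat_imp, sat_eqv]
  refine exists_congr fun x => ?_
  have h1 : Q (update v a x) := hQ _ _ _ (by omega) hv
  have h2 : ∀ y, Q (update (update v a x) 13 y) := fun y => hQ _ _ _ (by norm_num) h1
  rw [hk _ a h1 (by omega), sat_R p (by omega) (by norm_num) (by omega)]
  have h3 : ∀ y, (Sat O ((cU k 13).inst h) (update (update v a x) 13 y) ↔ y ∈ W) := by
    intro y
    rw [hk _ 13 (h2 y) (by norm_num), update_self]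
  have h4 : ∀ y, (Sat O ((cR p s 12 13).inst h) (update (update v a x) 13 y) ↔
      BB (v 64) p (v 65) (v 66) (v s) (v 12) y) := by
    intro y
    rw [sat_R p (by omega) (by norm_num) (by norm_num)]
    rcases hs with rfl | rfl <;> rcases ha with rfl | rfl <;> simp
  simp only [h3, h4]
  rcases hs with rfl | rfl <;> rcases ha with rfl | rfl <;> simp

lemma sat_Onto (hQ : Keep100 Q) (hR : RepU O Q h X Y Z) (p : ℕ) (hv : Q v) :
    Sat O ((TOnto p).inst h) v ↔ ∃ c, c ∈ Z ∧ BB (v 64) p (v 65) (v 66) (v 67) c (v 10) ∧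
      BB (v 64) p (v 65) (v 66) (v 68) c (v 11) ∧ ∀ c', c' ∈ Z →
        BB (v 64) p (v 65) (v 66) (v 67) c' (v 10) →
          BB (v 64) p (v 65) (v 66) (v 68) c' (v 11) → c' = c := by
  simp only [TOnto, sat_ex, sat_and, sat_all, sat_imp, sat_eqv]
  refine exists_congr fun x => ?_
  have h1 : Q (update v 12 x) := hQ _ _ _ (by norm_num) hv
  have h2 : ∀ y, Q (update (update v 12 x) 13 y) := fun y => hQ _ _ _ (by norm_num) h1
  rw [sat_U2 hQ hR h1 (by norm_num), sat_R p (by norm_num) (by norm_num) (by norm_num),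
    sat_R p (by norm_num) (by norm_num) (by norm_num)]
  have h3 : ∀ y, (Sat O ((cU 2 13).inst h) (update (update v 12 x) 13 y) ↔ y ∈ Z) := by
    intro y
    rw [sat_U2 hQ hR (h2 y) (by norm_num), update_self]
  have h4 : ∀ y, (Sat O ((cR p 67 13 10).inst h) (update (update v 12 x) 13 y) ↔
      BB (v 64) p (v 65) (v 66) (v 67) y (v 10)) := by
    intro y
    rw [sat_R p (by norm_num) (by norm_num) (by norm_num)]
    simp
  have h5 : ∀ y, (Sat O ((cR p 68 13 11).inst h) (update (update v 12 x) 13 y) ↔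
      BB (v 64) p (v 65) (v 66) (v 68) y (v 11)) := by
    intro y
    rw [sat_R p (by norm_num) (by norm_num) (by norm_num)]
    simp
  simp only [h3, h4, h5]
  simp

end

/-- **SEM2** -/
theorem t_SEM2 : Pool.Agent.Y924.UF.S_SEM2 := by
  intro K _ O Q h X Y Z p hQ hR v hv
  constructor
  · simp only [TMul, sat_ex, sat_and, sat_all, sat_imp, CMul, Prj]
    refine exists_congr fun t => exists_congr fun u => exists_congr fun w =>
      exists_congr fun s => exists_congr fun s' => ?_
    have h0 : Q (update (update (update (update (update v 64 t) 65 u) 66 w) 67 s) 68 s') :=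
      hQ _ _ _ (by norm_num) (hQ _ _ _ (by norm_num) (hQ _ _ _ (by norm_num)
        (hQ _ _ _ (by norm_num) (hQ _ _ _ (by norm_num) hv))))
    set v' : ℕ → K := update (update (update (update (update v 64 t) 65 u) 66 w) 67 s) 68 s'
      with hv'
    have e64 : v' 64 = t := by simp [hv']
    have e65 : v' 65 = u := by simp [hv']
    have e66 : v' 66 = w := by simp [hv']
    have e67 : v' 67 = s := by simp [hv']
    have e68 : v' 68 = s' := by simp [hv']
    refine and_congr (forall_congr' fun c => ?_) (forall_congr' fun a => forall_congr' fun b => ?_)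
    · have h1 : Q (update v' 12 c) := hQ _ _ _ (by norm_num) h0
      rw [sat_U2 hQ hR h1 (by norm_num), update_self,
        sat_Fn hQ p (fun v a hv ha => sat_U0 hQ hR hv ha) h1 (Or.inl rfl) (Or.inl rfl),
        sat_Fn hQ p (fun v a hv ha => sat_U1 hQ hR hv ha) h1 (Or.inr rfl) (Or.inr rfl)]
      have f64 : update v' 12 c 64 = t := by rw [update_of_ne (by norm_num), e64]
      have f65 : update v' 12 c 65 = u := by rw [update_of_ne (by norm_num), e65]
      have f66 : update v' 12 c 66 = w := by rw [update_of_ne (by norm_num), e66]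
      have f67 : update v' 12 c 67 = s := by rw [update_of_ne (by norm_num), e67]
      have f68 : update v' 12 c 68 = s' := by rw [update_of_ne (by norm_num), e68]
      rw [f64, f65, f66, f67, f68, update_self]
    · have h1 : Q (update (update v' 10 a) 11 b) :=
        hQ _ _ _ (by norm_num) (hQ _ _ _ (by norm_num) h0)
      rw [sat_U0 hQ hR h1 (by norm_num), sat_U1 hQ hR h1 (by norm_num), sat_Onto hQ hR p h1]
      have f64 : update (update v' 10 a) 11 b 64 = t := by
        rw [update_of_ne (by norm_num), update_of_ne (by norm_num), e64]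
      have f65 : update (update v' 10 a) 11 b 65 = u := by
        rw [update_of_ne (by norm_num), update_of_ne (by norm_num), e65]
      have f66 : update (update v' 10 a) 11 b 66 = w := by
        rw [update_of_ne (by norm_num), update_of_ne (by norm_num), e66]
      have f67 : update (update v' 10 a) 11 b 67 = s := by
        rw [update_of_ne (by norm_num), update_of_ne (by norm_num), e67]
      have f68 : update (update v' 10 a) 11 b 68 = s' := by
        rw [update_of_ne (by norm_num), update_of_ne (by norm_num), e68]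
      have f10 : update (update v' 10 a) 11 b 10 = a := by
        rw [update_of_ne (by norm_num), update_self]
      rw [f64, f65, f66, f67, f68, f10, update_self]
  · simp only [TOne, sat_ex, sat_and, sat_all, sat_imp, sat_eqv]
    refine exists_congr fun a => ?_
    have h1 : Q (update v 10 a) := hQ _ _ _ (by norm_num) hv
    rw [sat_U0 hQ hR h1 (by norm_num), update_self]
    refine and_congr Iff.rfl (forall_congr' fun b => ?_)
    have h2 : Q (update (update v 10 a) 11 b) := hQ _ _ _ (by norm_num) h1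
    rw [sat_U0 hQ hR h2 (by norm_num), update_self, update_of_ne (by norm_num), update_self]

end Pool.Agent.Y182.UF
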